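import Pool.Agent.V5helper14.Sep.Asm
import Pool.Agent.V5helper14.Sep.Notb
import Pool.Agent.V5helper69.SE.MC
import Pool.Agent.V5helper61.SE.CM
import Pool.Agent.V5helper6.SE.ORI
import Pool.Agent.V5helper6.SE.L3
import Pool.Agent.V5helper4.SE.L1
import Pool.Agent.V5helper4.SE.L2
import Pool.Agent.V5helper11.SE.SD
import Pool.Agent.V5helper11.SE.COEF
import Pool.Agent.V5helper72.SE.BASE
import Pool.Agent.V5helper86.SE.DEP
import Pool.Agent.V5helper86.SE.DATA
import Pool.Agent.V5helper62.SE.IND
import Pool.Agent.V5helper48.SE.SB
import Pool.Agent.V5helper66.SE.OMIT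
import Pool.Agent.V5helper1.SE.PAIR

/-!
# Helly numbers for consistently ordered hyperplane transversals

For pairwise disjoint compact convex sets in `ℝ^d`, `d ≥ 3`, with a `(d - 1)`-ordering, there is NO
number `h` such that consistent hyperplane transversals of all subfamilies of at most `h` members
imply a consistent hyperplane transversal of the whole family: `h(d) = ∞` for every `d ≥ 3`, with the
definitions of the problem file. This remains true for `(d - 3)`-separated families of segments and
points with ordering points in general position. For `(d - 2)`-separated families (no `d` members have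
a common `(d - 2)`-transversal) every `h` with this property is at least `d + 2`, for every `d ≥ 2`.

Part 1. `d = 3`: two of the sets are points, so that only a pencil of planes has to be considered, and
a projective change of coordinates turns the pencil into the planes `t = const`. A triple of segments
which is nearly collinear in all these planes can have an orientation which is a polynomial of degree
two in `t`: it is wrong exactly for `t` in a given short interval. The triples with these intervals
`[j / m, (j + 1) / m]` exclude all `t ∈ [0, 1]`, but a subfamily of fewer than `m` sets misses one of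
the triples. Higher dimensions: put the sets (and the ordering points) at the heights `Γ, Γ^2, Γ^3, ...`
and add one point, the apex.

Part 2. Four segments in the plane and `d - 2` apexes; the segments are lifted to carefully chosen
heights.
-/

set_option autoImplicit false

namespace Pool.Agent.Results.MP_b157f3_co.SeparatedFamilies

open Pool.Agent.V5helper14

/-- The determinant with the rows `(1, q (f 0)), ..., (1, q (f k))`; its sign is the orientation of
the tuple of points `q (f 0), ..., q (f k)` of `ℝ^k`. -/
noncomputable def orient {k n : ℕ} (q : Fin n → Fin k → ℝ) (f : Fin (k + 1) → Fin n) : ℝ :=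
  Matrix.det (Matrix.of fun i : Fin (k + 1) => (Fin.cons 1 (q (f i)) : Fin (k + 1) → ℝ))

/-- The points `x i`, `i ∈ B`, have the same `k`-order type as the points `p i`, `i ∈ B`: the same
orientations of all tuples `i₀ < ... < i_k` from `B`. -/
def SameOrderType {k n : ℕ} (x p : Fin n → Fin k → ℝ) (B : Finset (Fin n)) : Prop :=
  ∀ f : Fin (k + 1) → Fin n, StrictMono f → (∀ i, f i ∈ B) →
    SignType.sign (orient x f) = SignType.sign (orient p f)

/-- The members `a i`, `i ∈ B`, of a family of sets in `ℝ^(k+1)` are met by an oriented hyperplane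
consistently with the `k`-ordering given by the points `p i`. An oriented hyperplane `F` with an
orientation-preserving affine coordinate system is an injective affine map `φ : ℝ^k → ℝ^(k+1)` (with
image `F`, oriented by `φ`); the points picked in `a i ∩ F` are the points `φ (x i)`. -/
def MetConsistently {k n : ℕ} (a : Fin n → Set (Fin (k + 1) → ℝ)) (p : Fin n → Fin k → ℝ)
    (B : Finset (Fin n)) : Prop :=
  ∃ φ : (Fin k → ℝ) →ᵃ[ℝ] (Fin (k + 1) → ℝ), Function.Injective φ ∧
    ∃ x : Fin n → Fin k → ℝ, (∀ i ∈ B, φ (x i) ∈ a i) ∧ SameOrderType x p B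

/-- The property of `h` in the definition of the number `h(d)`, `d = k + 1`: for every `k`-ordered
finite family of pairwise disjoint nonempty compact convex sets in `ℝ^d`, if every subfamily of at
most `h` members is met consistently by an oriented hyperplane, then so is the whole family. -/
def HellyProperty (k h : ℕ) : Prop :=
  ∀ (n : ℕ) (a : Fin n → Set (Fin (k + 1) → ℝ)) (p : Fin n → Fin k → ℝ), Function.Injective p →
    (∀ i, (a i).Nonempty) → (∀ i, IsCompact (a i)) → (∀ i, Convex ℝ (a i)) →
    (∀ i j, i ≠ j → Disjoint (a i) (a j)) →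
    (∀ B : Finset (Fin n), B.card ≤ h → MetConsistently a p B) →
    MetConsistently a p Finset.univ

/-- A family is `m`-separated if no `m + 2` members are met by an `m`-flat: points of `m + 2`
different members are always affinely independent. (`0`-separated: pairwise disjoint.) -/
def MSeparated {n d : ℕ} (m : ℕ) (a : Fin n → Set (Fin d → ℝ)) : Prop :=
  ∀ f : Fin (m + 2) → Fin n, Function.Injective f → ∀ x : Fin (m + 2) → Fin d → ℝ,
    (∀ i, x i ∈ a (f i)) → AffineIndependent ℝ x

/-- The ordering points are in general position. -/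
def GeneralPosition {k n : ℕ} (p : Fin n → Fin k → ℝ) : Prop :=
  ∀ f : Fin (k + 1) → Fin n, StrictMono f → orient p f ≠ 0

/-- The same property as `HellyProperty (d - 1) h`, `d = m + 2`, but only for `(d - 2)`-separated
families with ordering points in general position. -/
def SeparatedHellyProperty (m h : ℕ) : Prop :=
  ∀ (n : ℕ) (a : Fin n → Set (Fin (m + 2) → ℝ)) (p : Fin n → Fin (m + 1) → ℝ),
    Function.Injective p → GeneralPosition p →
    (∀ i, (a i).Nonempty) → (∀ i, IsCompact (a i)) → (∀ i, Convex ℝ (a i)) →
    (∀ i j, i ≠ j → Disjoint (a i) (a j)) → MSeparated m a →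
    (∀ B : Finset (Fin n), B.card ≤ h → MetConsistently a p B) →
    MetConsistently a p Finset.univ

theorem nonempty_of_segment {d : ℕ} {s : Set (Fin d → ℝ)} (h : ∃ u v, s = segment ℝ u v) :
    s.Nonempty := by
  obtain ⟨u, v, rfl⟩ := h
  exact ⟨u, left_mem_segment ℝ u v⟩

theorem compact_of_segment {d : ℕ} {s : Set (Fin d → ℝ)} (h : ∃ u v, s = segment ℝ u v) :
    IsCompact s := by
  obtain ⟨u, v, rfl⟩ := h
  rw [← convexHull_pair]
  exact (Set.toFinite _).isCompact_convexHull ℝ

theorem convex_of_segment {d : ℕ} {s : Set (Fin d → ℝ)} (h : ∃ u v, s = segment ℝ u v) :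
    Convex ℝ s := by
  obtain ⟨u, v, rfl⟩ := h
  exact convex_segment u v

/-- (1) Dimension `d = m + 3 ≥ 3`: for every `h` there is a `(d - 3)`-separated family of pairwise
disjoint segments and points, ordered by distinct points in general position, such that every
subfamily of at most `h` members is met consistently, but the whole family is not.
(2) So no `h` has the property which defines `h(d)`, for every `d = k + 1 ≥ 3`.
(3) Dimension `d = m + 2 ≥ 2`: there is a `(d - 2)`-separated family of `d + 2` segments and points,
ordered by points in general position, such that every proper subfamily is met consistently, but the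
whole family is not. (4) So every `h` with the Helly property for `(d - 2)`-separated families is at
least `d + 2`. -/
theorem result :
    (∀ m h : ℕ, ∃ (n : ℕ) (a : Fin n → Set (Fin (m + 3) → ℝ)) (p : Fin n → Fin (m + 2) → ℝ),
      Function.Injective p ∧ GeneralPosition p ∧ (∀ i, ∃ u v, a i = segment ℝ u v) ∧
      (∀ i j, i ≠ j → Disjoint (a i) (a j)) ∧ MSeparated m a ∧
      (∀ B : Finset (Fin n), B.card ≤ h → MetConsistently a p B) ∧
      ¬ MetConsistently a p Finset.univ) ∧
    (∀ k h : ℕ, 2 ≤ k → ¬ HellyProperty k h) ∧
    (∀ m : ℕ, ∃ (a : Fin (m + 4) → Set (Fin (m + 2) → ℝ)) (p : Fin (m + 4) → Fin (m + 1) → ℝ),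
      Function.Injective p ∧ GeneralPosition p ∧ (∀ i, ∃ u v, a i = segment ℝ u v) ∧
      (∀ i j, i ≠ j → Disjoint (a i) (a j)) ∧ MSeparated m a ∧
      (∀ B : Finset (Fin (m + 4)), B ≠ Finset.univ → MetConsistently a p B) ∧
      ¬ MetConsistently a p Finset.univ) ∧
    (∀ m h : ℕ, SeparatedHellyProperty m h → m + 4 ≤ h) := by
  have hMC := Pool.Agent.V5helper69.SE.t_MC
  have hCM := Pool.Agent.V5helper61.SE.t_CM
  have hORI := Pool.Agent.V5helper6.SE.t_ORI
  have hBASE := Pool.Agent.V5helper72.SE.t_BASE
  have hL1 := Pool.Agent.V5helper4.SE.t_L1 hORI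
  have hL4 := Pool.Agent.V5helper4.SE.t_L4 hORI
  have hL2 := Pool.Agent.V5helper4.SE.t_L2 hORI
  have hL3 := Pool.Agent.V5helper6.SE.t_L3
  have hSD := Pool.Agent.V5helper11.SE.t_SD
  have hIND := Pool.Agent.V5helper62.SE.t_IND
  have hSB := Pool.Agent.V5helper48.SE.t_SB hIND
  have hOMIT := Pool.Agent.V5helper66.SE.t_OMIT Pool.Agent.V5helper86.SE.t_DEP
    Pool.Agent.V5helper86.SE.t_MONO Pool.Agent.V5helper11.SE.t_COEF hIND
  have hDATA := Pool.Agent.V5helper86.SE.t_DATA
  have hNOTB := Sep.t_NOTB Pool.Agent.V5helper1.SE.t_PAIR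
  have hA : ∀ m h : ℕ, ∃ (n : ℕ) (a : Fin n → Set (Fin (m + 3) → ℝ)) (p : Fin n → Fin (m + 2) → ℝ),
      Function.Injective p ∧ GeneralPosition p ∧ (∀ i, ∃ u v, a i = segment ℝ u v) ∧
      (∀ i j, i ≠ j → Disjoint (a i) (a j)) ∧ MSeparated m a ∧
      (∀ B : Finset (Fin n), B.card ≤ h → MetConsistently a p B) ∧
      ¬ MetConsistently a p Finset.univ := by
    intro m h
    obtain ⟨n, a, p, h1, h2, h3, h4, h5, h6⟩ :=
      Sep.partA hMC hCM hBASE hL1 hL4 hL2 hL3 hSD m (max h (m + 3))
    have hn : m + 3 ≤ n := by
      by_contra hc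
      push Not at hc
      apply h6
      apply h5
      rw [Finset.card_univ, Fintype.card_fin]
      exact le_trans hc.le (le_max_right _ _)
    exact ⟨n, a, p, Sep.GenPos.injective (by omega) h4, h4, h1, h2, h3,
      fun B hB => h5 B (le_trans hB (le_max_left _ _)), h6⟩
  have hB : ∀ m : ℕ, ∃ (a : Fin (m + 4) → Set (Fin (m + 2) → ℝ)) (p : Fin (m + 4) → Fin (m + 1) → ℝ),
      Function.Injective p ∧ GeneralPosition p ∧ (∀ i, ∃ u v, a i = segment ℝ u v) ∧
      (∀ i j, i ≠ j → Disjoint (a i) (a j)) ∧ MSeparated m a ∧
      (∀ B : Finset (Fin (m + 4)), B ≠ Finset.univ → MetConsistently a p B) ∧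
      ¬ MetConsistently a p Finset.univ := by
    intro m
    obtain ⟨h1, h2, h3, h4, h5, h6⟩ := Sep.partB hMC hCM hSB hOMIT hDATA hNOTB m
    exact ⟨Sep.famA m, Sep.famP m, Sep.GenPos.injective (by omega) h4, h4, h1, h2, h3, h5, h6⟩
  refine ⟨hA, ?_, hB, ?_⟩
  · intro k h hk hH
    obtain ⟨m, rfl⟩ : ∃ m, k = m + 2 := ⟨k - 2, by omega⟩
    obtain ⟨n, a, p, hp, -, hseg, hdisj, -, hfew, hall⟩ := hA m h
    exact hall (hH n a p hp (fun i => nonempty_of_segment (hseg i))
      (fun i => compact_of_segment (hseg i)) (fun i => convex_of_segment (hseg i)) hdisj hfew)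
  · intro m h hH
    by_contra hc
    push Not at hc
    obtain ⟨a, p, hp, hgp, hseg, hdisj, hsep, hfew, hall⟩ := hB m
    apply hall
    apply hH _ a p hp hgp (fun i => nonempty_of_segment (hseg i))
      (fun i => compact_of_segment (hseg i)) (fun i => convex_of_segment (hseg i)) hdisj hsep
    intro B hB'
    apply hfew
    rintro rfl
    rw [Finset.card_univ, Fintype.card_fin] at hB'
    omega

end Pool.Agent.Results.MP_b157f3_co.SeparatedFamilies
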